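import Pool.Agent.H9.SH.Tim
import Pool.Agent.H10.FTM.Cls

/-!
# Filling the times of a family of curves

The statement `VVS` (filling live times does not increase the information of the point) for lines of
dimension `m (e + 1)` gives the same statement for curves of degree at most `e + 1` of
dimension `m`.
-/

set_option autoImplicit false

namespace Pool.SH

open Finset Real
open Pool.Agent.H49.Ent Pool.Agent.H32.Dense Pool.STK Pool.KA Pool.KM7

variable {m e J : ℕ}

/-- The family of curves with filled times. -/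
noncomputable def CFam.fill (G : CFam m e J) : CFam m e J where
  Ω := G.Ω × Fin (2 ^ J)
  ζ := G.ζ
  fin := inferInstance
  p := Pool.FTM.un (2 ^ J) G.p
  c := fun a => G.c a.1
  T := fun a => a.2
  Z := fun a => G.Z a.1
  isLaw := Pool.FTM.un_isLaw (Pool.FTM.two_pos J) G.isLaw
  dir := fun a => G.dir a.1
  tim := fun a => a.2.isLt

/-- The exchange of the noise and of the time. -/
def swp {Ω N I : Type} (a : (Ω × N) × I) : (Ω × I) × N := ((a.1.1, a.2), a.1.2)

theorem swp_psh {Ω : Type} [Fintype Ω] (N : Type) [Fintype N] (n : ℕ) (p : Ω → ℝ) :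
    Psh (Pool.FTM.un n (up N p)) (swp (Ω := Ω) (N := N) (I := Fin n))
      (up N (Pool.FTM.un n p)) := by
  classical
  intro b
  unfold law
  rw [Finset.sum_eq_single ((b.1.1, b.2), b.1.2)]
  · have h1 : swp ((b.1.1, b.2), b.1.2) = b := rfl
    rw [if_pos h1]
    exact div_right_comm _ _ _
  · intro a _ ha
    rw [if_neg]
    intro h
    apply ha
    rw [← h]
    rfl
  · intro h
    exact absurd (Finset.mem_univ _) h

theorem fill_lines_Vf (G : CFam m e J) :
    (Pool.FTM.fill G.lines).Vf = G.fill.lines.Vf := by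
  have h := swp_psh (Nz m e J) (2 ^ J) G.p
  have h1 : CH (Pool.FTM.fill G.lines).p
      (fun a => ((Pool.FTM.fill G.lines).X J a, (Pool.FTM.fill G.lines).T a))
      (Pool.FTM.fill G.lines).Z =
      CH G.fill.lines.p (fun b => (G.fill.lines.X J b, G.fill.lines.T b)) G.fill.lines.Z :=
    h.CH_eq (fun b => (G.fill.lines.X J b, G.fill.lines.T b)) G.fill.lines.Z
  have h2 : CH (Pool.FTM.fill G.lines).p (Pool.FTM.fill G.lines).T
      (fun a => ((Pool.FTM.fill G.lines).l a, (Pool.FTM.fill G.lines).Z a)) =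
      CH G.fill.lines.p G.fill.lines.T (fun b => (G.fill.lines.l b, G.fill.lines.Z b)) :=
    h.CH_eq G.fill.lines.T (fun b => (G.fill.lines.l b, G.fill.lines.Z b))
  unfold Fam.Vf
  rw [h1, h2]

/-- Filling the times does not increase the information of the point of the curve, if the times are
live. -/
def VVSC (m e : ℕ) : Prop :=
  ∀ ε > 0, ∃ η > 0, ∀ K : ℕ, ∃ θ > 0, ∃ J₀ : ℕ, ∀ J ≥ J₀, ∀ G : CFam m e J,
    G.TGD False K η 0 (η * J) (θ * J) → G.fill.Vf ≤ G.Vf + ε * J

/-- **Filling the times of curves.** -/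
theorem vvs_curves (m e : ℕ)
    (h : Pool.FTM.VVS (m := m * (e + 1)) (fun _ _ => True)) : VVSC m e := by
  intro ε hε
  obtain ⟨η, hη, h1⟩ := h (ε / 2) (half_pos hε)
  refine ⟨η, hη, fun K => ?_⟩
  obtain ⟨θ, hθ, J₀, h2⟩ := h1 K
  obtain ⟨J₁, hJ₁⟩ := exists_nat_ge (4 * Cs m e / ε)
  refine ⟨θ, hθ, max J₀ J₁, fun J hJ G hG => ?_⟩
  have h3 := h2 J ((le_max_left _ _).trans hJ) G.lines trivial (lines_TGD hG)
  have h4 := lines_Vf_le G
  have h5 := lines_Vf_ge G.fill
  have h6 := fill_lines_Vf G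
  have h7 : (J₁ : ℝ) ≤ J := by exact_mod_cast (le_max_right _ _).trans hJ
  have h8 : 4 * Cs m e ≤ ε * J := by
    have h9 := hJ₁.trans h7
    rw [div_le_iff₀ hε] at h9
    linarith only [h9]
  linarith only [h3, h4, h5, h6, h8]

end Pool.SH
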