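import Pool.Agent.H85.TG.Defs2

/-!
# Polynomial curves as lines of a larger space: definitions

A curve of degree at most `e + 1` in dimension `m`, with uniform independent extra parameters
`b 1, .., b e`, is a line of dimension `m (e + 1)`: `z j = b j + t (c (j + 1) - b (j + 1))`
(`b 0 = c 0`, `b (e + 1) = 0`), and the point of the curve is `∑ t ^ j z j`.
-/

set_option autoImplicit false

namespace Pool.SH

open Finset Real
open Pool.Agent.H49.Ent Pool.Agent.H32.Dense Pool.STK Pool.KA

/-! ### The shear embedding -/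

/-- The coefficients of a curve of degree at most `e + 1` in dimension `m`. -/
abbrev Cf (m e : ℕ) : Type := Fin (e + 2) → Fin m → ℝ

/-- The lines in dimension `M`: position at time zero, direction. -/
abbrev Ln (M : ℕ) : Type := (Fin M → ℝ) × (Fin M → ℝ)

/-- The point of the curve. -/
noncomputable def cpos {m e : ℕ} (c : Cf m e) (t : ℝ) (i : Fin m) : ℝ :=
  ∑ j : Fin (e + 2), t ^ (j : ℕ) * c j i

/-- The point of the line. -/
noncomputable def lpos {M : ℕ} (l : Ln M) (t : ℝ) (k : Fin M) : ℝ := l.1 k + t * l.2 k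

/-- The starting point, by components. -/
noncomputable def st {m e : ℕ} (c : Cf m e) (b : Fin e → Fin m → ℝ) (j : Fin (e + 1)) : Fin m → ℝ :=
  Fin.cases (c 0) b j

/-- The shift of the direction, by components. -/
noncomputable def tl {m e : ℕ} (b : Fin e → Fin m → ℝ) (j : Fin (e + 1)) : Fin m → ℝ :=
  Fin.lastCases (fun _ => 0) b j

/-- The line of the curve `c` with extra parameters `b`. -/
noncomputable def lin {m e : ℕ} (c : Cf m e) (b : Fin e → Fin m → ℝ) : Ln (m * (e + 1)) :=
  (fun k => st c b (finProdFinEquiv.symm k).2 (finProdFinEquiv.symm k).1,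
    fun k => c (finProdFinEquiv.symm k).2.succ (finProdFinEquiv.symm k).1 -
      tl b (finProdFinEquiv.symm k).2 (finProdFinEquiv.symm k).1)

/-- The values of the extra parameters, at resolution `J`. -/
abbrev Nz (m e J : ℕ) : Type := Fin e → Fin m → Fin (2 ^ J)

/-- The extra parameters. -/
noncomputable def nz {m e J : ℕ} (n : Nz m e J) (j : Fin e) (i : Fin m) : ℝ :=
  ((n j i : ℕ) : ℝ) / 2 ^ J - 1 / 2

/-! ### Families of curves -/

/-- A family of curves of degree at most `e + 1`, of resolution `J`, in dimension `m`. -/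
structure CFam (m e J : ℕ) : Type 1 where
  /-- the sample space -/
  Ω : Type
  /-- the values of the side information -/
  ζ : Type
  /-- the sample space is finite -/
  fin : Fintype Ω
  /-- the law -/
  p : Ω → ℝ
  /-- the coefficients -/
  c : Ω → Cf m e
  /-- the time, in units of `2 ^ (-J)` -/
  T : Ω → ℕ
  /-- the side information -/
  Z : Ω → ζ
  isLaw : IsLaw p
  dir : ∀ ω (j : Fin (e + 1)) i, |c ω j.succ i| ≤ 1 / 2
  tim : ∀ ω, T ω < 2 ^ J

attribute [instance] CFam.fin

variable {m e J : ℕ}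

/-- The time as a real number. -/
noncomputable def CFam.t (G : CFam m e J) (ω : G.Ω) : ℝ := (G.T ω : ℝ) / 2 ^ J

/-- The position at the time of the sample, rounded at scale `2 ^ (-J)`. -/
noncomputable def CFam.X (G : CFam m e J) (ω : G.Ω) : Fin m → ℤ := fl J (cpos (G.c ω) (G.t ω))

/-- The information of the exact point on the curve, given the side information. -/
noncomputable def CFam.Vf (G : CFam m e J) : ℝ :=
  CH G.p (fun ω => (G.X ω, G.T ω)) G.Z - CH G.p G.T (fun ω => (G.c ω, G.Z ω))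

/-- A kernel from the curves and the side information to the times. -/
structure CFam.Ker (G : CFam m e J) (μ : G.Ω → ℕ → ℝ) : Prop where
  nonneg : ∀ ω t, 0 ≤ μ ω t
  sum : ∀ ω, ∑ t ∈ range (2 ^ J), μ ω t ≤ 1
  pos : ∀ ω, 0 < G.p ω → 0 < μ ω (G.T ω)
  det : Det G.p (fun ω => (G.c ω, G.Z ω)) μ

/-- Along every path of the support, all windows but a few are live. -/
def CFam.Live (G : CFam m e J) (μ : G.Ω → ℕ → ℝ) (K : ℕ) (η r n : ℝ) : Prop :=
  ∀ ω, 0 < G.p ω → ∀ a b : ℕ, a ≤ b → b ≤ J →
    (nbad (μ ω) J K η (G.T ω) a b : ℝ) ≤ n + r * ((b : ℝ) - a)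

/-- The relative entropy of the time, given the curve and the side information. -/
noncomputable def CFam.kl (G : CFam m e J) (μ : G.Ω → ℕ → ℝ) : ℝ :=
  Ex G.p (fun ω => -Real.log (μ ω (G.T ω))) - CH G.p G.T (fun ω => (G.c ω, G.Z ω))

/-- Times with live windows, in the mean. -/
def CFam.TG (G : CFam m e J) (s : Prop) (K : ℕ) (η r n ε : ℝ) : Prop :=
  ∃ μ : G.Ω → ℕ → ℝ, G.Ker μ ∧ (s → Det G.p G.Z μ) ∧ G.Live μ K η r n ∧ G.kl μ ≤ ε

/-- Times with live windows, pointwise. -/
def CFam.TGD (G : CFam m e J) (s : Prop) (K : ℕ) (η r n ε : ℝ) : Prop :=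
  ∃ μ : G.Ω → ℕ → ℝ, G.Ker μ ∧ (s → Det G.p G.Z μ) ∧ G.Live μ K η r n ∧
    ∀ ω, 0 < G.p ω → cpr G.p G.T (fun w => (G.c w, G.Z w)) ω ≤ Real.exp ε * μ ω (G.T ω)

/-! ### The family of lines -/

/-- The law with uniform independent noise. -/
noncomputable def up {Ω : Type} (N : Type) [Fintype N] (p : Ω → ℝ) (w : Ω × N) : ℝ :=
  p w.1 / Fintype.card N

theorem up_isLaw {Ω : Type} [Fintype Ω] (N : Type) [Fintype N] [Nonempty N] {p : Ω → ℝ}
    (hp : IsLaw p) : IsLaw (up N p) := by
  have hc : (0 : ℝ) < Fintype.card N := by exact_mod_cast Fintype.card_pos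
  refine ⟨fun w => div_nonneg (hp.nonneg _) hc.le, ?_⟩
  unfold up
  rw [Fintype.sum_prod_type]
  simp only [Finset.sum_const, Finset.card_univ, nsmul_eq_mul]
  rw [← hp.sum_one]
  refine Finset.sum_congr rfl fun ω _ => ?_
  field_simp

theorem st_zero (c : Cf m e) (b : Fin e → Fin m → ℝ) : st c b 0 = c 0 := rfl

theorem st_succ (c : Cf m e) (b : Fin e → Fin m → ℝ) (j : Fin e) : st c b j.succ = b j := rfl

theorem tl_last (b : Fin e → Fin m → ℝ) : tl b (Fin.last e) = fun _ => 0 := by
  unfold tl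
  rw [Fin.lastCases_last]

theorem tl_castSucc (b : Fin e → Fin m → ℝ) (j : Fin e) : tl b j.castSucc = b j := by
  unfold tl
  rw [Fin.lastCases_castSucc]

theorem nz_abs (n : Nz m e J) (j : Fin e) (i : Fin m) : |nz n j i| ≤ 1 / 2 := by
  unfold nz
  have h : ((n j i : ℕ) : ℝ) < 2 ^ J := by exact_mod_cast (n j i).2
  have p1 : (0 : ℝ) < 2 ^ J := by positivity
  have h1 : ((n j i : ℕ) : ℝ) / 2 ^ J < 1 := (div_lt_one p1).mpr h
  have h0 : (0 : ℝ) ≤ ((n j i : ℕ) : ℝ) / 2 ^ J := by positivity
  rw [abs_le]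
  constructor <;> linarith only [h0, h1]

theorem tl_nz_abs (n : Nz m e J) (j : Fin (e + 1)) (i : Fin m) : |tl (nz n) j i| ≤ 1 / 2 := by
  refine Fin.lastCases ?_ (fun j => ?_) j
  · rw [tl_last]
    norm_num
  · rw [tl_castSucc]
    exact nz_abs n j i

/-- The family of lines of dimension `m (e + 1)`. -/
noncomputable def CFam.lines (G : CFam m e J) : Fam (m * (e + 1)) J where
  Ω := G.Ω × Nz m e J
  ζ := G.ζ
  fin := inferInstance
  p := up (Nz m e J) G.p
  u := fun w => (lin (G.c w.1) (nz w.2)).1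
  d := fun w => (lin (G.c w.1) (nz w.2)).2
  T := fun w => G.T w.1
  Z := fun w => G.Z w.1
  isLaw := up_isLaw _ G.isLaw
  dir := fun w k => by
    have h1 := G.dir w.1 (finProdFinEquiv.symm k).2 (finProdFinEquiv.symm k).1
    have h2 := tl_nz_abs w.2 (finProdFinEquiv.symm k).2 (finProdFinEquiv.symm k).1
    have h3 := abs_sub (G.c w.1 (finProdFinEquiv.symm k).2.succ (finProdFinEquiv.symm k).1)
      (tl (nz w.2) (finProdFinEquiv.symm k).2 (finProdFinEquiv.symm k).1)
    refine h3.trans ?_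
    linarith only [h1, h2]
  tim := fun w => G.tim w.1

/-! ### Sections of sets of lines and of curves -/

/-- The cells of the section of a set of lines. -/
def lsec {M : ℕ} (J : ℕ) (t : ℝ) (LL : Set (Ln M)) : Set (Fin M → ℤ) :=
  (fun l => fl J (lpos l t)) '' LL

/-- The cells of the section of a set of curves. -/
def csec (J : ℕ) (t : ℝ) (CC : Set (Cf m e)) : Set (Fin m → ℤ) :=
  (fun c => fl J (cpos c t)) '' CC

/-- The number of the extra parameters for which the line is in `LL`. -/
noncomputable def nfib (J : ℕ) (LL : Set (Ln (m * (e + 1)))) (c : Cf m e) : ℕ :=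
  Set.ncard {n : Nz m e J | lin c (nz n) ∈ LL}

/-- The curves with at least `N` lines in `LL`. -/
def lev (J : ℕ) (LL : Set (Ln (m * (e + 1)))) (N : ℕ) : Set (Cf m e) :=
  {c | N ≤ nfib J LL c}

/-- The constant of the theorems. -/
noncomputable def Cs (m e : ℕ) : ℝ :=
  m * Real.log (2 * (e + 1) + 1) + m * e * Real.log 9

end Pool.SH
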