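import Pool.Agent.H9.SH.Alg

/-!
# Polynomial curves as lines of a larger space: sections of the level sets
-/

set_option autoImplicit false

namespace Pool.SH

open Finset Real
open Pool.Agent.H49.Ent Pool.Agent.H32.Dense Pool.STK Pool.KA

variable {m e J : ℕ}

theorem cell_near_int {c c' : Cf m e} {b b' : Fin e → Fin m → ℝ} {t : ℝ} (h0 : 0 ≤ t) (h1 : t ≤ 1)
    (h : fl J (lpos (lin c b) t) = fl J (lpos (lin c' b') t)) (i : Fin m) :
    |fl J (cpos c t) i - fl J (cpos c' t) i| ≤ (e + 1 : ℤ) := by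
  have h2 := cell_near h0 h1 h i
  have h3 : ((|fl J (cpos c t) i - fl J (cpos c' t) i| : ℤ) : ℝ) ≤ ((e + 1 : ℤ) : ℝ) := by
    rw [Int.cast_abs]
    push_cast at h2 ⊢
    exact h2
  exact Int.cast_le.mp h3

theorem exists_curve {t : ℝ} {CC : Set (Cf m e)} (x : csec J t CC) :
    ∃ c ∈ CC, fl J (cpos c t) = x.1 := x.2

/-- **The sections of a level set of curves.** -/
theorem sec_count {t : ℝ} (h0 : 0 ≤ t) (h1 : t ≤ 1) {LL : Set (Ln (m * (e + 1)))}
    (hfin : (lsec J t LL).Finite) {N : ℕ} (hN : 1 ≤ N) {CC : Set (Cf m e)}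
    (hCC : ∀ c ∈ CC, N ≤ nfib J LL c) :
    (csec J t CC).Finite ∧
      N * (csec J t CC).ncard ≤ (2 * e + 3) ^ m * (lsec J t LL).ncard := by
  classical
  -- a curve through each cell
  have hex : ∀ x : Fin m → ℤ, ∃ c : Cf m e, x ∈ csec J t CC → c ∈ CC ∧ fl J (cpos c t) = x := by
    intro x
    by_cases hx : x ∈ csec J t CC
    · obtain ⟨c, h2, h3⟩ := hx
      exact ⟨c, fun _ => ⟨h2, h3⟩⟩
    · exact ⟨fun _ _ => 0, fun h => absurd h hx⟩
  choose cc hcc using hex
  -- the pairs of a cell and a noise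
  set S : Set ((Fin m → ℤ) × Nz m e J) :=
    {q | q.1 ∈ csec J t CC ∧ lin (cc q.1) (nz q.2) ∈ LL} with hS
  set f : (Fin m → ℤ) × Nz m e J → (Fin (m * (e + 1)) → ℤ) :=
    fun q => fl J (lpos (lin (cc q.1) (nz q.2)) t) with hf
  have hfS : ∀ q ∈ S, f q ∈ lsec J t LL := fun q hq => ⟨_, hq.2, rfl⟩
  have hbox : ∀ q ∈ S, ∀ q' ∈ S, f q = f q' → ∀ i, |q.1 i - q'.1 i| ≤ (e + 1 : ℤ) := by
    intro q hq q' hq' h i
    have h2 := cell_near_int h0 h1 h i
    rwa [(hcc _ hq.1).2, (hcc _ hq'.1).2] at h2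
  have hinj : ∀ q ∈ S, ∀ q' ∈ S, f q = f q' → q.1 = q'.1 → q = q' := by
    intro q _ q' _ h h2
    refine Prod.ext h2 (nz_unique (c := cc q.1) (t := t) fun i j => ?_)
    have h3 := congrFun h (ix i j.succ)
    simp only [hf] at h3
    rw [← h2] at h3
    exact h3
  have hfib : ∀ q₀ ∈ S, ∀ F : Finset ((Fin m → ℤ) × Nz m e J), (∀ q ∈ F, q ∈ S ∧ f q = f q₀) →
      F.card ≤ (2 * e + 3) ^ m := by
    intro q₀ hq₀ F hF
    have h2 : F.card ≤ (Fintype.piFinset fun i : Fin m =>
        Finset.Icc (q₀.1 i - (e + 1 : ℤ)) (q₀.1 i + (e + 1 : ℤ))).card := by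
      refine Finset.card_le_card_of_injOn (fun q => q.1) ?_ ?_
      · intro q hq
        have hq' := hF q (Finset.mem_coe.mp hq)
        rw [Finset.mem_coe, Fintype.mem_piFinset]
        intro i
        have h3 := hbox q hq'.1 q₀ hq₀ hq'.2 i
        rw [abs_le] at h3
        rw [Finset.mem_Icc]
        constructor
        · linarith only [h3.1]
        · linarith only [h3.2]
      · intro q hq q' hq' h3
        have h4 := hF q (Finset.mem_coe.mp hq)
        have h5 := hF q' (Finset.mem_coe.mp hq')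
        exact hinj q h4.1 q' h5.1 (h4.2.trans h5.2.symm) h3
    refine h2.trans ?_
    rw [Fintype.card_piFinset]
    have h3 : ∀ i ∈ (Finset.univ : Finset (Fin m)),
        (Finset.Icc (q₀.1 i - (e + 1 : ℤ)) (q₀.1 i + (e + 1 : ℤ))).card = 2 * e + 3 := by
      intro i _
      rw [Int.card_Icc]
      have h4 : q₀.1 i + (e + 1 : ℤ) + 1 - (q₀.1 i - (e + 1 : ℤ)) = ((2 * e + 3 : ℕ) : ℤ) := by
        push_cast
        ring
      rw [h4, Int.toNat_natCast]
    rw [Finset.prod_congr rfl h3]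
    simp
  -- finiteness of `S`
  have hSfin : S.Finite := by
    refine Set.Finite.of_finite_fibers f (hfin.subset ?_) ?_
    · rintro _ ⟨q, hq, rfl⟩
      exact hfS q hq
    · rintro _ ⟨q₀, hq₀, rfl⟩
      refine (Set.Finite.subset ((Fintype.piFinset fun i : Fin m =>
        Finset.Icc (q₀.1 i - (e + 1 : ℤ)) (q₀.1 i + (e + 1 : ℤ))) ×ˢ
          (Finset.univ : Finset (Nz m e J))).finite_toSet ?_)
      rintro q ⟨hq, hq'⟩
      rw [Finset.mem_coe, Finset.mem_product, Fintype.mem_piFinset]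
      refine ⟨fun i => ?_, Finset.mem_univ _⟩
      have h3 := hbox q hq q₀ hq₀ hq' i
      rw [abs_le] at h3
      rw [Finset.mem_Icc]
      constructor
      · linarith only [h3.1]
      · linarith only [h3.2]
  -- each cell has at least `N` noises
  have hN' : ∀ x ∈ csec J t CC, N ≤ Set.ncard {n : Nz m e J | lin (cc x) (nz n) ∈ LL} :=
    fun x hx => hCC _ (hcc x hx).1
  have himg : Prod.fst '' S = csec J t CC := by
    ext x
    constructor
    · rintro ⟨q, hq, rfl⟩
      exact hq.1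
    · intro hx
      have h2 := hN' x hx
      have h3 : {n : Nz m e J | lin (cc x) (nz n) ∈ LL}.Nonempty := by
        rw [← Set.ncard_pos (Set.toFinite _)]
        omega
      obtain ⟨n, hn⟩ := h3
      exact ⟨(x, n), ⟨hx, hn⟩, rfl⟩
  have hcfin : (csec J t CC).Finite := by
    rw [← himg]
    exact hSfin.image _
  refine ⟨hcfin, ?_⟩
  set F := hSfin.toFinset with hFdef
  have hmemF : ∀ q, q ∈ F ↔ q ∈ S := fun q => hSfin.mem_toFinset
  have hup : F.card ≤ (2 * e + 3) ^ m * (F.image f).card := by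
    refine Finset.card_le_mul_card_image F _ ?_
    intro z hz
    obtain ⟨q₀, hq₀, rfl⟩ := Finset.mem_image.mp hz
    refine hfib q₀ ((hmemF _).mp hq₀) _ ?_
    intro q hq
    rw [Finset.mem_filter] at hq
    exact ⟨(hmemF _).mp hq.1, hq.2⟩
  have hup2 : (F.image f).card ≤ (lsec J t LL).ncard := by
    rw [← Set.ncard_coe_finset]
    refine Set.ncard_le_ncard ?_ hfin
    intro z hz
    obtain ⟨q, hq, rfl⟩ := Finset.mem_image.mp (Finset.mem_coe.mp hz)
    exact hfS q ((hmemF _).mp hq)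
  have hlow : N * (F.image Prod.fst).card ≤ F.card := by
    refine Finset.mul_card_image_le_card F N ?_
    intro x hx
    obtain ⟨q₀, hq₀, rfl⟩ := Finset.mem_image.mp hx
    have hx' : q₀.1 ∈ csec J t CC := ((hmemF _).mp hq₀).1
    refine (hN' _ hx').trans ?_
    have h5 : {n : Nz m e J | lin (cc q₀.1) (nz n) ∈ LL}.ncard =
        ((Set.toFinite {n : Nz m e J | lin (cc q₀.1) (nz n) ∈ LL}).toFinset).card :=
      Set.ncard_eq_toFinset_card _ _
    rw [h5]
    refine Finset.card_le_card_of_injOn (fun n => (q₀.1, n)) ?_ ?_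
    · intro n hn
      have hn' : lin (cc q₀.1) (nz n) ∈ LL := by
        have := (Set.Finite.mem_toFinset (Set.toFinite _)).mp (Finset.mem_coe.mp hn)
        exact this
      rw [Finset.mem_coe, Finset.mem_filter]
      exact ⟨(hmemF _).mpr ⟨hx', hn'⟩, rfl⟩
    · intro n _ n' _ h
      exact (Prod.ext_iff.mp h).2
  have hcard : (F.image Prod.fst).card = (csec J t CC).ncard := by
    rw [← himg, ← Set.ncard_coe_finset]
    congr 1
    ext x
    rw [Finset.mem_coe, Finset.mem_image]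
    constructor
    · rintro ⟨q, hq, rfl⟩
      exact ⟨q, (hmemF _).mp hq, rfl⟩
    · rintro ⟨q, hq, rfl⟩
      exact ⟨q, (hmemF _).mpr hq, rfl⟩
  rw [hcard] at hlow
  exact hlow.trans (hup.trans (Nat.mul_le_mul_left _ hup2))

/-- The logarithmic form, for the level sets. -/
theorem lev_sec {t : ℝ} (h0 : 0 ≤ t) (h1 : t ≤ 1) {LL : Set (Ln (m * (e + 1)))}
    (hfin : (lsec J t LL).Finite) (k : ℕ) (hne : (csec J t (lev J LL (2 ^ k) : Set (Cf m e))).Nonempty) :
    (csec J t (lev J LL (2 ^ k) : Set (Cf m e))).Finite ∧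
    Real.log (csec J t (lev J LL (2 ^ k) : Set (Cf m e))).ncard ≤
      Real.log (lsec J t LL).ncard - k * Real.log 2 + m * Real.log (2 * e + 3) := by
  obtain ⟨h2, h3⟩ := sec_count (e := e) (m := m) h0 h1 hfin (N := 2 ^ k) Nat.one_le_two_pow
    (CC := lev J LL (2 ^ k)) (fun c hc => hc)
  refine ⟨h2, ?_⟩
  have h4 : 0 < (csec J t (lev J LL (2 ^ k) : Set (Cf m e))).ncard := (Set.ncard_pos h2).mpr hne
  have h5 : 0 < (lsec J t LL).ncard := by
    rcases Nat.eq_zero_or_pos (lsec J t LL).ncard with h | h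
    · rw [h, mul_zero] at h3
      have : 0 < 2 ^ k * (csec J t (lev J LL (2 ^ k) : Set (Cf m e))).ncard := by positivity
      omega
    · exact h
  have h6 : ((2 : ℝ) ^ k) * (csec J t (lev J LL (2 ^ k) : Set (Cf m e))).ncard ≤
      (2 * e + 3) ^ m * (lsec J t LL).ncard := by exact_mod_cast h3
  have p4 : (0 : ℝ) < (csec J t (lev J LL (2 ^ k) : Set (Cf m e))).ncard := by exact_mod_cast h4
  have p5 : (0 : ℝ) < (lsec J t LL).ncard := by exact_mod_cast h5
  have h7 := Real.log_le_log (by positivity) h6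
  rw [Real.log_mul (by positivity) p4.ne', Real.log_mul (by positivity) p5.ne', Real.log_pow,
    Real.log_pow] at h7
  linarith only [h7]

end Pool.SH
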