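import Pool.Agent.H9.SH.Tim
import Pool.Agent.H9.SH.Sec

/-!
# Polynomial curves as lines of a larger space: from labels of the lines to labels of the curves
-/

set_option autoImplicit false

namespace Pool.SH

open Finset Real
open Pool.Agent.H49.Ent Pool.Agent.H32.Dense Pool.STK Pool.KA

variable {m e J : ℕ}

theorem nfib_le (LL : Set (Ln (m * (e + 1)))) (c : Cf m e) : nfib J LL c ≤ 2 ^ (J * m * e) := by
  unfold nfib
  refine (Set.ncard_le_ncard (Set.subset_univ _) (Set.toFinite _)).trans ?_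
  rw [Set.ncard_univ, Nat.card_eq_fintype_card]
  have h := card_Nz m e J
  have h1 : ((Fintype.card (Nz m e J) : ℕ) : ℝ) = ((2 ^ (J * m * e) : ℕ) : ℝ) := by
    rw [h]
    push_cast
    rfl
  exact (Nat.cast_injective h1).le

theorem nfib_pos {LL : Set (Ln (m * (e + 1)))} {c : Cf m e} {n : Nz m e J}
    (h : lin c (nz n) ∈ LL) : 0 < nfib J LL c := by
  unfold nfib
  rw [Set.ncard_pos (Set.toFinite _)]
  exact ⟨n, h⟩

section Info

variable {G : CFam m e J} {E : Type} [Fintype E] {q : E → ℝ} {κ : Type}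

/-- A copy of the law of the family of lines. -/
def Cpy (G : CFam m e J) {E : Type} [Fintype E] (q : E → ℝ) (pr : E → G.Ω × Nz m e J) : Prop :=
  ∀ w, law q pr w = up (Nz m e J) G.p w

theorem Cpy.H_eq {pr : E → G.Ω × Nz m e J} (h : Cpy G q pr) {S : Type*}
    (X : G.Ω × Nz m e J → S) : H q (fun a => X (pr a)) = H (up (Nz m e J) G.p) X :=
  H_eq_of_marginal pr h X

theorem Cpy.CH_eq {pr : E → G.Ω × Nz m e J} (h : Cpy G q pr) {S T : Type*}
    (X : G.Ω × Nz m e J → S) (Y : G.Ω × Nz m e J → T) :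
    CH q (fun a => X (pr a)) (fun a => Y (pr a)) = CH (up (Nz m e J) G.p) X Y := by
  unfold CH
  rw [← h.H_eq Y, ← h.H_eq (fun w => (X w, Y w))]

/-- The information of a label of the line on the extra parameters. -/
theorem info_noise (hq : IsLaw q) {pr : E → G.Ω × Nz m e J} (hpr : Cpy G q pr) (B : E → κ)
    (LL : κ → Set (Ln (m * (e + 1))))
    (hB : ∀ a, 0 < q a → lin (G.c (pr a).1) (nz (pr a).2) ∈ LL (B a)) :
    m * e * (J * Real.log 2) ≤ CH q B (fun a => (G.c (pr a).1, G.Z (pr a).1)) +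
      Ex q (fun a => Real.log (nfib J (LL (B a)) (G.c (pr a).1))) := by
  classical
  have h0 := hq.nonneg
  have a1 : CH q (fun a => (pr a).2) (fun a => (G.c (pr a).1, G.Z (pr a).1)) =
      m * e * (J * Real.log 2) := by
    rw [hpr.CH_eq (fun w => w.2) (fun w => (G.c w.1, G.Z w.1)),
      up_CH_noise G.isLaw (fun ω => (G.c ω, G.Z ω)), log_card_Nz]
  have a2 := CH_le_card h0 hq.sum_one (fun a => (pr a).2)
    (fun a => (B a, (G.c (pr a).1, G.Z (pr a).1)))
    (fun y => (Set.toFinite {n : Nz m e J | lin y.2.1 (nz n) ∈ LL y.1}).toFinset)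
    (fun a ha => (Set.Finite.mem_toFinset _).mpr (hB a ha))
  have a3 : ∀ a, ((Set.toFinite {n : Nz m e J |
      lin (G.c (pr a).1) (nz n) ∈ LL (B a)}).toFinset).card = nfib J (LL (B a)) (G.c (pr a).1) :=
    fun a => (Set.ncard_eq_toFinset_card _ _).symm
  simp only [a3] at a2
  have a4 := CH_le_add h0 (fun a => (pr a).2) B (fun a => (G.c (pr a).1, G.Z (pr a).1))
  rw [a1] at a4
  linarith only [a2, a4]

/-- The level of a label. -/
noncomputable def kl (LL : κ → Set (Ln (m * (e + 1)))) (B : E → κ)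
    (pr : E → G.Ω × Nz m e J) (a : E) : ℕ :=
  Nat.log 2 (nfib J (LL (B a)) (G.c (pr a).1))

/-- **From labels of the lines to labels of the curves.** The label of the curve is the label of the
line, with its level `k`; the set of curves is the level set. The entropy is replaced by the
information on the curve. -/
theorem soft (hq : IsLaw q) {pr : E → G.Ω × Nz m e J} (hpr : Cpy G q pr) (B : E → κ)
    (LL : κ → Set (Ln (m * (e + 1))))
    (hB : ∀ a, 0 < q a → lin (G.c (pr a).1) (nz (pr a).2) ∈ LL (B a)) (cost : κ → ℝ) {R : ℝ}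
    (h : CH q B (fun a => G.Z (pr a).1) + Ex q (fun a => cost (B a)) ≤ G.lines.Vf + R) :
    (∀ a, 0 < q a → G.c (pr a).1 ∈ (lev J (LL (B a)) (2 ^ kl LL B pr a) : Set (Cf m e))) ∧
    CH q (fun a => (B a, kl LL B pr a)) (fun a => G.Z (pr a).1) -
      CH q (fun a => (B a, kl LL B pr a)) (fun a => (G.c (pr a).1, G.Z (pr a).1)) +
      Ex q (fun a => cost (B a) - kl LL B pr a * Real.log 2 + m * Real.log (2 * e + 3)) ≤
    G.Vf + R + (Cs m e + Real.log 2 + m * Real.log (2 * e + 3) + Real.log (J * m * e + 1)) := by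
  classical
  have h0 := hq.nonneg
  have hl2 : 0 < Real.log 2 := Real.log_pos (by norm_num)
  have hpos : ∀ a, 0 < q a → 0 < nfib J (LL (B a)) (G.c (pr a).1) :=
    fun a ha => nfib_pos (hB a ha)
  refine ⟨fun a ha => Nat.pow_log_le_self 2 (hpos a ha).ne', ?_⟩
  have b1 := info_noise hq hpr B LL hB
  -- the level has few values
  have b2 := CH_le_card h0 hq.sum_one (kl LL B pr) (fun a => (B a, G.Z (pr a).1))
    (fun _ => Finset.range (J * m * e + 1)) (by
      intro a ha
      rw [Finset.mem_range]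
      unfold kl
      have h1 := Nat.log_mono_right (b := 2) (nfib_le (J := J) (LL (B a)) (G.c (pr a).1))
      rw [Nat.log_pow (by norm_num)] at h1
      omega)
  have b3 : Ex q (fun _ => Real.log ((Finset.range (J * m * e + 1)).card)) =
      Real.log (J * m * e + 1) := by
    rw [Ex_const hq.sum_one, Finset.card_range]
    push_cast
    rfl
  rw [b3] at b2
  have b4 : CH q (fun a => (B a, kl LL B pr a)) (fun a => G.Z (pr a).1) ≤
      CH q (fun a => (kl LL B pr a, B a)) (fun a => G.Z (pr a).1) := by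
    refine CH_mono_left h0 ?_
    intro a b _ _ h
    have h1 := (Prod.ext_iff.mp h).1
    exact Prod.ext (Prod.ext_iff.mp h1).2 (Prod.ext_iff.mp h1).1
  have b5 := CH_chain h0 (kl LL B pr) B (fun a => G.Z (pr a).1)
  have b6 : CH q B (fun a => (G.c (pr a).1, G.Z (pr a).1)) ≤
      CH q (fun a => (B a, kl LL B pr a)) (fun a => (G.c (pr a).1, G.Z (pr a).1)) := by
    refine CH_mono_left h0 ?_
    intro a b _ _ h
    exact (Prod.ext_iff.mp (Prod.ext_iff.mp h).1).1
  have b7 : Ex q (fun a => Real.log (nfib J (LL (B a)) (G.c (pr a).1))) ≤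
      Ex q (fun a => (kl LL B pr a : ℝ) * Real.log 2 + Real.log 2) := by
    refine Ex_mono h0 fun a ha => ?_
    have h1 := Nat.lt_pow_succ_log_self (b := 2) (by norm_num) (nfib J (LL (B a)) (G.c (pr a).1))
    have h2 : (nfib J (LL (B a)) (G.c (pr a).1) : ℝ) ≤ 2 ^ (kl LL B pr a + 1) := by
      exact_mod_cast h1.le
    have h3 := Real.log_le_log (by exact_mod_cast hpos a ha) h2
    rw [Real.log_pow] at h3
    push_cast at h3
    linarith only [h3]
  have b8 : Ex q (fun a => (kl LL B pr a : ℝ) * Real.log 2 + Real.log 2) =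
      Ex q (fun a => (kl LL B pr a : ℝ) * Real.log 2) + Real.log 2 := by
    rw [Ex_add, Ex_const hq.sum_one]
  have b9 : Ex q (fun a => cost (B a) - kl LL B pr a * Real.log 2 + m * Real.log (2 * e + 3)) =
      Ex q (fun a => cost (B a)) - Ex q (fun a => (kl LL B pr a : ℝ) * Real.log 2) +
        m * Real.log (2 * e + 3) := by
    rw [Ex_add, Ex_sub, Ex_const hq.sum_one]
  have c1 := lines_Vf_le G
  rw [b9]
  linarith only [h, b1, b2, b4, b5, b6, b7, b8, c1]

end Info

end Pool.SH
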