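import Pool.Agent.H9.SH.Defs

/-!
# Polynomial curves as lines of a larger space: the algebra of the embedding
-/

set_option autoImplicit false

namespace Pool.SH

open Finset Real
open Pool.Agent.H49.Ent Pool.Agent.H32.Dense Pool.STK Pool.KA

variable {m e J : ℕ}

/-- The index of the component `j` in the direction `i`. -/
def ix (i : Fin m) (j : Fin (e + 1)) : Fin (m * (e + 1)) := finProdFinEquiv (i, j)

theorem lpos_ix (c : Cf m e) (b : Fin e → Fin m → ℝ) (t : ℝ) (i : Fin m) (j : Fin (e + 1)) :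
    lpos (lin c b) t (ix i j) = st c b j i + t * (c j.succ i - tl b j i) := by
  unfold lpos lin ix
  simp only [Equiv.symm_apply_apply]

/-- The point of the curve is a combination of the components of the point of the line. -/
theorem cpos_eq (c : Cf m e) (b : Fin e → Fin m → ℝ) (t : ℝ) (i : Fin m) :
    cpos c t i = ∑ j : Fin (e + 1), t ^ (j : ℕ) * lpos (lin c b) t (ix i j) := by
  have h1 : ∑ j : Fin (e + 1), t ^ (j : ℕ) * lpos (lin c b) t (ix i j) =
      (∑ j : Fin (e + 1), t ^ (j : ℕ) * st c b j i) +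
        (∑ j : Fin (e + 1), t ^ ((j : ℕ) + 1) * c j.succ i) -
          ∑ j : Fin (e + 1), t ^ ((j : ℕ) + 1) * tl b j i := by
    rw [← Finset.sum_add_distrib, ← Finset.sum_sub_distrib]
    refine Finset.sum_congr rfl fun j _ => ?_
    rw [lpos_ix]
    ring
  have h2 : ∑ j : Fin (e + 1), t ^ (j : ℕ) * st c b j i =
      c 0 i + ∑ j : Fin e, t ^ ((j : ℕ) + 1) * b j i := by
    rw [Fin.sum_univ_succ]
    simp only [Fin.val_zero, pow_zero, one_mul, st_zero, st_succ, Fin.val_succ]
  have h3 : ∑ j : Fin (e + 1), t ^ ((j : ℕ) + 1) * tl b j i =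
      ∑ j : Fin e, t ^ ((j : ℕ) + 1) * b j i := by
    rw [Fin.sum_univ_castSucc]
    simp only [tl_last, tl_castSucc, mul_zero, add_zero, Fin.val_castSucc]
  have h4 : cpos c t i = c 0 i + ∑ j : Fin (e + 1), t ^ ((j : ℕ) + 1) * c j.succ i := by
    unfold cpos
    rw [Fin.sum_univ_succ]
    simp only [Fin.val_zero, pow_zero, one_mul, Fin.val_succ]
  rw [h1, h2, h3, h4]
  ring

/-- The cell of the point of the curve, given the cell of the point of the line. -/
theorem cell_near {c c' : Cf m e} {b b' : Fin e → Fin m → ℝ} {t : ℝ} (h0 : 0 ≤ t) (h1 : t ≤ 1)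
    (h : fl J (lpos (lin c b) t) = fl J (lpos (lin c' b') t)) (i : Fin m) :
    |((fl J (cpos c t) i - fl J (cpos c' t) i : ℤ) : ℝ)| ≤ e + 1 := by
  have p1 : (0 : ℝ) < 2 ^ J := by positivity
  have hk : ∀ k, |(2 : ℝ) ^ J * lpos (lin c b) t k - 2 ^ J * lpos (lin c' b') t k| < 1 := by
    intro k
    have h2 : ⌊(2 : ℝ) ^ J * lpos (lin c b) t k⌋ = ⌊(2 : ℝ) ^ J * lpos (lin c' b') t k⌋ :=
      congrFun h k
    exact Int.abs_sub_lt_one_of_floor_eq_floor h2
  have h3 : (2 : ℝ) ^ J * cpos c t i - 2 ^ J * cpos c' t i =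
      ∑ j : Fin (e + 1), t ^ (j : ℕ) *
        (2 ^ J * lpos (lin c b) t (ix i j) - 2 ^ J * lpos (lin c' b') t (ix i j)) := by
    rw [cpos_eq c b, cpos_eq c' b', Finset.mul_sum, Finset.mul_sum, ← Finset.sum_sub_distrib]
    refine Finset.sum_congr rfl fun j _ => ?_
    ring
  have h4 : |(2 : ℝ) ^ J * cpos c t i - 2 ^ J * cpos c' t i| < e + 1 := by
    rw [h3]
    refine lt_of_le_of_lt (Finset.abs_sum_le_sum_abs _ _) ?_
    have h5 : ∀ j : Fin (e + 1), |t ^ (j : ℕ) *
        (2 ^ J * lpos (lin c b) t (ix i j) - 2 ^ J * lpos (lin c' b') t (ix i j))| < 1 := by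
      intro j
      rw [abs_mul, abs_of_nonneg (pow_nonneg h0 _)]
      have h6 : t ^ (j : ℕ) ≤ 1 := pow_le_one₀ h0 h1
      calc t ^ (j : ℕ) * |2 ^ J * lpos (lin c b) t (ix i j) - 2 ^ J * lpos (lin c' b') t (ix i j)|
          ≤ 1 * |2 ^ J * lpos (lin c b) t (ix i j) - 2 ^ J * lpos (lin c' b') t (ix i j)| :=
            mul_le_mul_of_nonneg_right h6 (abs_nonneg _)
        _ = |2 ^ J * lpos (lin c b) t (ix i j) - 2 ^ J * lpos (lin c' b') t (ix i j)| := one_mul _
        _ < 1 := hk _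
    have h7 : ∑ j : Fin (e + 1), |t ^ (j : ℕ) *
        (2 ^ J * lpos (lin c b) t (ix i j) - 2 ^ J * lpos (lin c' b') t (ix i j))| <
        ∑ _j : Fin (e + 1), (1 : ℝ) :=
      Finset.sum_lt_sum_of_nonempty ⟨0, Finset.mem_univ _⟩ fun j _ => h5 j
    refine lt_of_lt_of_le h7 ?_
    simp
  have h8 : fl J (cpos c t) i = ⌊(2 : ℝ) ^ J * cpos c t i⌋ := rfl
  have h9 : fl J (cpos c' t) i = ⌊(2 : ℝ) ^ J * cpos c' t i⌋ := rfl
  rw [h8, h9]
  have a1 := Int.floor_le ((2 : ℝ) ^ J * cpos c t i)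
  have a2 := Int.lt_floor_add_one ((2 : ℝ) ^ J * cpos c t i)
  have a3 := Int.floor_le ((2 : ℝ) ^ J * cpos c' t i)
  have a4 := Int.lt_floor_add_one ((2 : ℝ) ^ J * cpos c' t i)
  rw [abs_lt] at h4
  have b1 : ((⌊(2 : ℝ) ^ J * cpos c t i⌋ - ⌊(2 : ℝ) ^ J * cpos c' t i⌋ : ℤ) : ℝ) < ((e + 2 : ℤ) : ℝ) := by
    push_cast
    linarith only [a1, a4, h4.2]
  have b2 : ((-(e + 2) : ℤ) : ℝ) <
      ((⌊(2 : ℝ) ^ J * cpos c t i⌋ - ⌊(2 : ℝ) ^ J * cpos c' t i⌋ : ℤ) : ℝ) := by
    push_cast
    linarith only [a2, a3, h4.1]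
  rw [Int.cast_lt] at b1 b2
  have b3 : |⌊(2 : ℝ) ^ J * cpos c t i⌋ - ⌊(2 : ℝ) ^ J * cpos c' t i⌋| ≤ (e + 1 : ℤ) := by
    rw [abs_le]
    constructor
    · have := Int.add_one_le_iff.mpr b2
      linarith only [this]
    · have := Int.le_sub_one_of_lt b1
      linarith only [this]
  have b4 : ((|⌊(2 : ℝ) ^ J * cpos c t i⌋ - ⌊(2 : ℝ) ^ J * cpos c' t i⌋| : ℤ) : ℝ) ≤
      ((e + 1 : ℤ) : ℝ) := Int.cast_le.mpr b3
  rw [Int.cast_abs] at b4
  push_cast at b4 ⊢
  exact b4

/-- Grid points: the cell of a translate determines the point. -/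
theorem grid_inj {a a' : ℕ} {y : ℝ}
    (h : ⌊(2 : ℝ) ^ J * (((a : ℝ) / 2 ^ J - 1 / 2) + y)⌋ =
      ⌊(2 : ℝ) ^ J * (((a' : ℝ) / 2 ^ J - 1 / 2) + y)⌋) : a = a' := by
  have p1 : (2 : ℝ) ^ J ≠ 0 := by positivity
  have e1 : ∀ a : ℕ, (2 : ℝ) ^ J * (((a : ℝ) / 2 ^ J - 1 / 2) + y) =
      ((a : ℤ) : ℝ) + 2 ^ J * (y - 1 / 2) := by
    intro a
    push_cast
    field_simp
    ring
  rw [e1, e1, Int.floor_intCast_add, Int.floor_intCast_add] at h
  exact_mod_cast add_right_cancel h

/-- Given the curve, the cells of the components `1, .., e` of the point of the line determine the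
extra parameters. -/
theorem nz_unique {c : Cf m e} {n n' : Nz m e J} {t : ℝ}
    (h : ∀ (i : Fin m) (j : Fin e), fl J (lpos (lin c (nz n)) t) (ix i j.succ) =
      fl J (lpos (lin c (nz n')) t) (ix i j.succ)) : n = n' := by
  -- descending induction on the component
  have key : ∀ k : ℕ, ∀ j : Fin e, e ≤ (j : ℕ) + k → n j = n' j := by
    intro k
    induction k with
    | zero =>
      intro j hj
      exact absurd j.2 (by omega)
    | succ k ih =>
      intro j hj
      funext i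
      have h1 := h i j
      have h2 : ∀ n : Nz m e J, fl J (lpos (lin c (nz n)) t) (ix i j.succ) =
          ⌊(2 : ℝ) ^ J * ((((n j i : ℕ) : ℝ) / 2 ^ J - 1 / 2) +
            t * (c j.succ.succ i - tl (nz n) j.succ i))⌋ := by
        intro n
        have h3 : fl J (lpos (lin c (nz n)) t) (ix i j.succ) =
          ⌊(2 : ℝ) ^ J * lpos (lin c (nz n)) t (ix i j.succ)⌋ := rfl
        rw [h3, lpos_ix, st_succ]
        rfl
      have h4 : tl (nz n) j.succ i = tl (nz n') j.succ i := by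
        by_cases hl : (j : ℕ) + 1 < e
        · have e1 : j.succ = (⟨(j : ℕ) + 1, hl⟩ : Fin e).castSucc := by
            ext
            simp
          rw [e1, tl_castSucc, tl_castSucc]
          unfold nz
          rw [ih ⟨(j : ℕ) + 1, hl⟩ (by simp only []; omega)]
        · have e1 : j.succ = Fin.last e := by
            ext
            simp only [Fin.val_succ, Fin.val_last]
            omega
          rw [e1, tl_last, tl_last]
      rw [h2, h2, h4] at h1
      exact Fin.ext (grid_inj h1)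
  funext j
  exact key e j (by omega)

/-- The line determines the curve and the extra parameters. -/
theorem lin_inj {c c' : Cf m e} {b b' : Fin e → Fin m → ℝ} (h : lin c b = lin c' b') :
    c = c' ∧ b = b' := by
  have h1 : ∀ (i : Fin m) (j : Fin (e + 1)), st c b j i = st c' b' j i := by
    intro i j
    have := congrFun (congrArg Prod.fst h) (ix i j)
    unfold lin ix at this
    simpa only [Equiv.symm_apply_apply] using this
  have h2 : ∀ (i : Fin m) (j : Fin (e + 1)), c j.succ i - tl b j i = c' j.succ i - tl b' j i := by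
    intro i j
    have := congrFun (congrArg Prod.snd h) (ix i j)
    unfold lin ix at this
    simpa only [Equiv.symm_apply_apply] using this
  have hb : b = b' := by
    funext j i
    have := h1 i j.succ
    rwa [st_succ, st_succ] at this
  subst hb
  refine ⟨?_, rfl⟩
  funext j i
  refine Fin.cases ?_ (fun j => ?_) j
  · exact h1 i 0
  · have := h2 i j
    linarith only [this]

end Pool.SH
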