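import Pool.Agent.H90.STK.Defs

/-!
# Soft labels: the general form

`x` is a cell (or a curve), `n` the position in the cell (or the extra parameters), `B` a label of
the pair: `n ∈ A x B`. The level of the label is the logarithm `k` of the number of the positions in
`A x B`. The information of `(B, k)` on the cell, minus the level, is at most the entropy of `B`,
minus the entropy of the position.
-/

set_option autoImplicit false

namespace Pool.SH

open Finset Real
open Pool.Agent.H49.Ent Pool.Agent.H32.Dense Pool.STK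

section Gen

variable {E : Type} [Fintype E] {q : E → ℝ} {κ X N ζ : Type}

/-- The information of a label on the position. -/
theorem info_gen (hq : IsLaw q) (x : E → X) (n : E → N) (Z : E → ζ) (B : E → κ)
    (A : X → κ → Finset N) (hA : ∀ a, 0 < q a → n a ∈ A (x a) (B a)) :
    CH q n (fun a => (x a, Z a)) ≤ CH q B (fun a => (x a, Z a)) +
      Ex q (fun a => Real.log ((A (x a) (B a)).card)) := by
  have a2 := CH_le_card hq.nonneg hq.sum_one n (fun a => (B a, (x a, Z a)))
    (fun y => A y.2.1 y.1) hA
  have a4 := CH_le_add hq.nonneg n B (fun a => (x a, Z a))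
  linarith only [a2, a4]

/-- The level of a label. -/
def klg (x : E → X) (B : E → κ) (A : X → κ → Finset N) (a : E) : ℕ :=
  Nat.log 2 (A (x a) (B a)).card

omit [Fintype E] in
theorem klg_le (x : E → X) (n : E → N) (B : E → κ) (A : X → κ → Finset N) {a : E}
    (hA : n a ∈ A (x a) (B a)) : 2 ^ klg x B A a ≤ (A (x a) (B a)).card :=
  Nat.pow_log_le_self 2 (Finset.card_pos.mpr ⟨_, hA⟩).ne'

/-- **Soft labels.** -/
theorem soft_gen (hq : IsLaw q) (x : E → X) (n : E → N) (Z : E → ζ) (B : E → κ)
    (A : X → κ → Finset N) (hA : ∀ a, 0 < q a → n a ∈ A (x a) (B a)) {K : ℕ}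
    (hK : ∀ a, 0 < q a → (A (x a) (B a)).card ≤ 2 ^ K) (cost : E → ℝ) {V : ℝ}
    (h : CH q B Z + Ex q cost ≤ V) :
    CH q (fun a => (B a, klg x B A a)) Z -
      CH q (fun a => (B a, klg x B A a)) (fun a => (x a, Z a)) +
      Ex q (fun a => cost a - klg x B A a * Real.log 2) ≤
    V - CH q n (fun a => (x a, Z a)) + Real.log 2 + Real.log (K + 1) := by
  have h0 := hq.nonneg
  have hl2 : 0 < Real.log 2 := Real.log_pos (by norm_num)
  have b1 := info_gen hq x n Z B A hA
  have b2 := CH_le_card h0 hq.sum_one (klg x B A) (fun a => (B a, Z a))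
    (fun _ => Finset.range (K + 1)) (by
      intro a ha
      rw [Finset.mem_range]
      unfold klg
      have h1 := Nat.log_mono_right (b := 2) (hK a ha)
      rw [Nat.log_pow (by norm_num)] at h1
      omega)
  have b3 : Ex q (fun _ => Real.log ((Finset.range (K + 1)).card)) = Real.log (K + 1) := by
    rw [Ex_const hq.sum_one, Finset.card_range]
    push_cast
    rfl
  rw [b3] at b2
  have b4 : CH q (fun a => (B a, klg x B A a)) Z ≤ CH q (fun a => (klg x B A a, B a)) Z := by
    refine CH_mono_left h0 ?_
    intro a b _ _ h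
    have h1 := (Prod.ext_iff.mp h).1
    exact Prod.ext (Prod.ext_iff.mp h1).2 (Prod.ext_iff.mp h1).1
  have b5 := CH_chain h0 (klg x B A) B Z
  have b6 : CH q B (fun a => (x a, Z a)) ≤
      CH q (fun a => (B a, klg x B A a)) (fun a => (x a, Z a)) := by
    refine CH_mono_left h0 ?_
    intro a b _ _ h
    exact (Prod.ext_iff.mp (Prod.ext_iff.mp h).1).1
  have b7 : Ex q (fun a => Real.log ((A (x a) (B a)).card)) ≤
      Ex q (fun a => (klg x B A a : ℝ) * Real.log 2 + Real.log 2) := by
    refine Ex_mono h0 fun a ha => ?_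
    have hp : 0 < (A (x a) (B a)).card := Finset.card_pos.mpr ⟨_, hA a ha⟩
    have h1 := Nat.lt_pow_succ_log_self (b := 2) (by norm_num) (A (x a) (B a)).card
    have h2 : ((A (x a) (B a)).card : ℝ) ≤ 2 ^ (klg x B A a + 1) := by
      exact_mod_cast h1.le
    have h3 := Real.log_le_log (by exact_mod_cast hp) h2
    rw [Real.log_pow] at h3
    push_cast at h3
    linarith only [h3]
  have b8 : Ex q (fun a => (klg x B A a : ℝ) * Real.log 2 + Real.log 2) =
      Ex q (fun a => (klg x B A a : ℝ) * Real.log 2) + Real.log 2 := by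
    rw [Ex_add, Ex_const hq.sum_one]
  have b9 : Ex q (fun a => cost a - klg x B A a * Real.log 2) =
      Ex q cost - Ex q (fun a => (klg x B A a : ℝ) * Real.log 2) := Ex_sub q _ _
  rw [b9]
  linarith only [h, b1, b2, b4, b5, b6, b7, b8]

end Gen

end Pool.SH
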