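import Pool.Agent.H9.SH.Uni

/-!
# Polynomial curves as lines of a larger space: the hypotheses on the times
-/

set_option autoImplicit false

namespace Pool.SH

open Finset Real
open Pool.Agent.H49.Ent Pool.Agent.H32.Dense Pool.STK Pool.KA

variable {m e J : ℕ}

theorem nz_inj {n n' : Nz m e J} (h : (nz n : Fin e → Fin m → ℝ) = nz n') : n = n' := by
  funext j i
  have h6 := congrFun (congrFun h j) i
  unfold nz at h6
  have p1 : (2 : ℝ) ^ J ≠ 0 := by positivity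
  have h7 : ((n j i : ℕ) : ℝ) = ((n' j i : ℕ) : ℝ) := by
    field_simp at h6
    linarith only [h6]
  exact Fin.ext (by exact_mod_cast h7)

theorem law_inj {Ω S T : Type*} [Fintype Ω] (p : Ω → ℝ) (X : Ω → S) {F : S → T}
    (hF : Function.Injective F) (x : S) : law p (fun ω => F (X ω)) (F x) = law p X x := by
  classical
  unfold law
  refine Finset.sum_congr rfl fun ω _ => ?_
  by_cases h : X ω = x
  · rw [if_pos h, if_pos (congrArg F h)]
  · rw [if_neg h, if_neg fun h' => h (hF h')]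

theorem lines_det {G : CFam m e J} {S : Type*} {Y : G.Ω → S}
    (h : Det G.p (fun ω => (G.c ω, G.Z ω)) Y) :
    Det G.lines.p (fun w => (G.lines.l w, G.lines.Z w)) (fun w => Y w.1) := by
  intro a b ha hb hab
  have h1 : lin (G.c a.1) (nz a.2) = lin (G.c b.1) (nz b.2) := (Prod.ext_iff.mp hab).1
  exact h a.1 b.1 (up_pos ha) (up_pos hb) (Prod.ext (lin_inj h1).1 (Prod.ext_iff.mp hab).2)

theorem lines_Ker {G : CFam m e J} {μ : G.Ω → ℕ → ℝ} (h : G.Ker μ) :
    G.lines.Ker (fun w => μ w.1) :=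
  ⟨fun w t => h.nonneg w.1 t, fun w => h.sum w.1, fun w hw => h.pos w.1 (up_pos hw),
    lines_det h.det⟩

theorem lines_Live {G : CFam m e J} {μ : G.Ω → ℕ → ℝ} {K : ℕ} {η r n : ℝ}
    (h : G.Live μ K η r n) : G.lines.Live (fun w => μ w.1) K η r n :=
  fun w hw => h w.1 (up_pos hw)

theorem lines_detZ {G : CFam m e J} {μ : G.Ω → ℕ → ℝ} (h : Det G.p G.Z μ) :
    Det G.lines.p G.lines.Z (fun w => μ w.1) :=
  fun a b ha hb hab => h a.1 b.1 (up_pos ha) (up_pos hb) hab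

theorem lines_kl (G : CFam m e J) (μ : G.Ω → ℕ → ℝ) :
    G.lines.kl (fun w => μ w.1) = G.kl μ := by
  unfold Fam.kl CFam.kl
  rw [lines_CHT G]
  congr 1
  exact up_Ex (N := Nz m e J) G.p fun ω => -Real.log (μ ω (G.T ω))

/-- The hypothesis on the times, in the mean. -/
theorem lines_TG {G : CFam m e J} {s : Prop} {K : ℕ} {η r n ε : ℝ} (h : G.TG s K η r n ε) :
    G.lines.TG s K η r n ε := by
  obtain ⟨μ, h1, h2, h3, h4⟩ := h
  exact ⟨fun w => μ w.1, lines_Ker h1, fun hs => lines_detZ (h2 hs), lines_Live h3,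
    (lines_kl G μ).le.trans h4⟩

theorem lines_cpr (G : CFam m e J) (w : G.Ω × Nz m e J) :
    cpr G.lines.p G.lines.T (fun w => (G.lines.l w, G.lines.Z w)) w =
      cpr G.p G.T (fun ω => (G.c ω, G.Z ω)) w.1 := by
  have hc := card_pos' (Nz m e J)
  let F₁ : Nz m e J × (Cf m e × G.ζ) → Ln (m * (e + 1)) × G.ζ := fun q => (lin q.2.1 (nz q.1), q.2.2)
  have hF₁ : Function.Injective F₁ := by
    intro a b h
    have h1 : lin a.2.1 (nz a.1) = lin b.2.1 (nz b.1) := (Prod.ext_iff.mp h).1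
    have h2 : a.2.2 = b.2.2 := (Prod.ext_iff.mp h).2
    obtain ⟨h3, h4⟩ := lin_inj h1
    exact Prod.ext (nz_inj h4) (Prod.ext h3 h2)
  let F₂ : Nz m e J × (ℕ × (Cf m e × G.ζ)) → ℕ × (Ln (m * (e + 1)) × G.ζ) :=
    fun q => (q.2.1, (lin q.2.2.1 (nz q.1), q.2.2.2))
  have hF₂ : Function.Injective F₂ := by
    intro a b h
    have h0 : a.2.1 = b.2.1 := (Prod.ext_iff.mp h).1
    have h1 : lin a.2.2.1 (nz a.1) = lin b.2.2.1 (nz b.1) :=
      (Prod.ext_iff.mp (Prod.ext_iff.mp h).2).1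
    have h2 : a.2.2.2 = b.2.2.2 := (Prod.ext_iff.mp (Prod.ext_iff.mp h).2).2
    obtain ⟨h3, h4⟩ := lin_inj h1
    exact Prod.ext (nz_inj h4) (Prod.ext h0 (Prod.ext h3 h2))
  have e1 : law (up (Nz m e J) G.p) (fun w => (lin (G.c w.1) (nz w.2), G.Z w.1))
      (lin (G.c w.1) (nz w.2), G.Z w.1) =
      law G.p (fun ω => (G.c ω, G.Z ω)) (G.c w.1, G.Z w.1) / Fintype.card (Nz m e J) := by
    rw [← up_law_pair (N := Nz m e J) G.p (fun ω => (G.c ω, G.Z ω)) w.2 (G.c w.1, G.Z w.1)]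
    exact law_inj (up (Nz m e J) G.p) (fun w => (w.2, (G.c w.1, G.Z w.1))) hF₁
      (w.2, (G.c w.1, G.Z w.1))
  have e2 : law (up (Nz m e J) G.p) (fun w => (G.T w.1, (lin (G.c w.1) (nz w.2), G.Z w.1)))
      (G.T w.1, (lin (G.c w.1) (nz w.2), G.Z w.1)) =
      law G.p (fun ω => (G.T ω, (G.c ω, G.Z ω))) (G.T w.1, (G.c w.1, G.Z w.1)) /
        Fintype.card (Nz m e J) := by
    rw [← up_law_pair (N := Nz m e J) G.p (fun ω => (G.T ω, (G.c ω, G.Z ω))) w.2
      (G.T w.1, (G.c w.1, G.Z w.1))]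
    exact law_inj (up (Nz m e J) G.p) (fun w => (w.2, (G.T w.1, (G.c w.1, G.Z w.1)))) hF₂
      (w.2, (G.T w.1, (G.c w.1, G.Z w.1)))
  have e3 : cpr G.lines.p G.lines.T (fun w => (G.lines.l w, G.lines.Z w)) w =
      law (up (Nz m e J) G.p) (fun w => (G.T w.1, (lin (G.c w.1) (nz w.2), G.Z w.1)))
        (G.T w.1, (lin (G.c w.1) (nz w.2), G.Z w.1)) /
      law (up (Nz m e J) G.p) (fun w => (lin (G.c w.1) (nz w.2), G.Z w.1))
        (lin (G.c w.1) (nz w.2), G.Z w.1) := rfl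
  rw [e3, e1, e2]
  unfold cpr
  rw [div_div_div_cancel_right₀ hc.ne']

/-- The hypothesis on the times, pointwise. -/
theorem lines_TGD {G : CFam m e J} {s : Prop} {K : ℕ} {η r n ε : ℝ} (h : G.TGD s K η r n ε) :
    G.lines.TGD s K η r n ε := by
  obtain ⟨μ, h1, h2, h3, h4⟩ := h
  refine ⟨fun w => μ w.1, lines_Ker h1, fun hs => lines_detZ (h2 hs), lines_Live h3, ?_⟩
  intro w hw
  rw [lines_cpr G w]
  exact h4 w.1 (up_pos hw)

end Pool.SH
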