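import Pool.Agent.H9.SH.Alg

/-!
# Polynomial curves as lines of a larger space: uniform independent noise
-/

set_option autoImplicit false

namespace Pool.SH

open Finset Real
open Pool.Agent.H49.Ent Pool.Agent.H32.Dense Pool.STK Pool.KA

section Up

variable {Ω : Type} [Fintype Ω] {N : Type} [Fintype N] [Nonempty N] {p : Ω → ℝ}

theorem card_pos' (N : Type) [Fintype N] [Nonempty N] : (0 : ℝ) < Fintype.card N := by
  exact_mod_cast Fintype.card_pos

theorem up_sum (p : Ω → ℝ) (f : Ω → ℝ) :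
    ∑ w : Ω × N, up N p w * f w.1 = ∑ ω, p ω * f ω := by
  have hc := card_pos' N
  unfold up
  rw [Fintype.sum_prod_type]
  simp only [Finset.sum_const, Finset.card_univ, nsmul_eq_mul]
  refine Finset.sum_congr rfl fun ω _ => ?_
  field_simp

theorem up_Ex (p : Ω → ℝ) (f : Ω → ℝ) : Ex (up N p) (fun w => f w.1) = Ex p f := up_sum p f

theorem up_law {S : Type*} (p : Ω → ℝ) (X : Ω → S) (x : S) :
    law (up N p) (fun w => X w.1) x = law p X x := by
  classical
  have h := up_sum (N := N) p (fun ω => if X ω = x then (1 : ℝ) else 0)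
  simp only [mul_ite, mul_one, mul_zero] at h
  unfold law
  have e1 : ∀ w : Ω × N, (open Classical in if X w.1 = x then up N p w else 0) =
      if X w.1 = x then up N p w else 0 := fun w => by congr
  rw [Finset.sum_congr rfl fun w _ => e1 w, h]

theorem up_H {S : Type*} (p : Ω → ℝ) (X : Ω → S) :
    H (up N p) (fun w => X w.1) = H p X := by
  unfold H
  congr 1
  simp_rw [up_law p X]
  exact up_sum p fun ω => Real.log (law p X (X ω))

theorem up_CH {S T : Type*} (p : Ω → ℝ) (X : Ω → S) (Y : Ω → T) :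
    CH (up N p) (fun w => X w.1) (fun w => Y w.1) = CH p X Y := by
  unfold CH
  rw [up_H p Y, up_H p fun ω => (X ω, Y ω)]

omit [Nonempty N] in
theorem up_law_pair {S : Type*} (p : Ω → ℝ) (X : Ω → S) (n : N) (x : S) :
    law (up N p) (fun w => (w.2, X w.1)) (n, x) = law p X x / Fintype.card N := by
  classical
  unfold law up
  rw [Fintype.sum_prod_type, Finset.sum_div]
  refine Finset.sum_congr rfl fun ω _ => ?_
  simp only [Prod.mk.injEq]
  by_cases h : X ω = x
  · simp only [h, and_true, Finset.sum_ite_eq', Finset.mem_univ, if_true]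
  · simp only [h, and_false, if_false, Finset.sum_const_zero, zero_div]

/-- The entropy of the noise. -/
theorem up_H_pair (hp : IsLaw p) {S : Type*} (X : Ω → S) :
    H (up N p) (fun w => (w.2, X w.1)) = Real.log (Fintype.card N) + H p X := by
  have hc := card_pos' N
  have h1 : ∀ w : Ω × N, up N p w * Real.log (law (up N p) (fun w => (w.2, X w.1)) (w.2, X w.1)) =
      up N p w * (Real.log (law p X (X w.1)) - Real.log (Fintype.card N)) := by
    intro w
    rw [up_law_pair]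
    rcases (hp.nonneg w.1).eq_or_lt with h0 | h0
    · unfold up
      rw [← h0]
      simp
    · rw [Real.log_div (law_pos hp.nonneg X h0).ne' hc.ne']
  unfold H
  rw [Finset.sum_congr rfl fun w _ => h1 w,
    up_sum p fun ω => Real.log (law p X (X ω)) - Real.log (Fintype.card N)]
  simp_rw [mul_sub]
  rw [Finset.sum_sub_distrib, ← Finset.sum_mul, hp.sum_one]
  ring

theorem up_CH_noise (hp : IsLaw p) {S : Type*} (X : Ω → S) :
    CH (up N p) (fun w => w.2) (fun w => X w.1) = Real.log (Fintype.card N) := by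
  unfold CH
  rw [up_H_pair hp X, up_H p X]
  ring

omit [Fintype Ω] in
theorem up_pos {w : Ω × N} (h : 0 < up N p w) : 0 < p w.1 := by
  have hc := card_pos' N
  unfold up at h
  exact (div_pos_iff_of_pos_right hc).mp h

omit [Fintype Ω] in
theorem up_pos' {w : Ω × N} (h : 0 < p w.1) : 0 < up N p w := div_pos h (card_pos' N)

/-- The noise is independent of the rest. -/
theorem up_CH_drop (hp : IsLaw p) {S T : Type*} (X : Ω → S) (Y : Ω → T) :
    CH (up N p) (fun w => X w.1) (fun w => (w.2, Y w.1)) = CH p X Y := by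
  have h0 := (up_isLaw N hp).nonneg
  have h1 : H (up N p) (fun w => (X w.1, (w.2, Y w.1))) =
      H (up N p) (fun w => (w.2, (X w.1, Y w.1))) := by
    refine H_congr h0 ?_ ?_
    · intro a b _ _ h
      simp only [Prod.mk.injEq] at h ⊢
      tauto
    · intro a b _ _ h
      simp only [Prod.mk.injEq] at h ⊢
      tauto
  unfold CH
  rw [h1, up_H_pair hp Y, up_H_pair hp fun ω => (X ω, Y ω)]
  ring

end Up

section Vf

variable {m e J : ℕ}

theorem card_Nz (m e J : ℕ) : (Fintype.card (Nz m e J) : ℝ) = 2 ^ (J * m * e) := by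
  simp only [Fintype.card_pi, Finset.prod_const, Finset.card_univ, Fintype.card_fin]
  push_cast
  rw [← pow_mul, ← pow_mul, ← mul_assoc]

theorem log_card_Nz (m e J : ℕ) :
    Real.log (Fintype.card (Nz m e J)) = m * e * (J * Real.log 2) := by
  rw [card_Nz, Real.log_pow]
  push_cast
  ring

instance (m e J : ℕ) : Nonempty (Nz m e J) := ⟨fun _ _ => ⟨0, by positivity⟩⟩

/-- The entropy of the time. -/
theorem lines_CHT (G : CFam m e J) :
    CH G.lines.p G.lines.T (fun w => (G.lines.l w, G.lines.Z w)) =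
      CH G.p G.T (fun ω => (G.c ω, G.Z ω)) := by
  have h0 := (up_isLaw (Nz m e J) G.isLaw).nonneg
  rw [← up_CH_drop (N := Nz m e J) G.isLaw G.T (fun ω => (G.c ω, G.Z ω))]
  refine CH_congr h0 (fun a b _ _ h => (Prod.ext_iff.mp h).1) (fun a b _ _ h => (Prod.ext_iff.mp h).1)
    ?_ ?_
  · intro a b _ _ h
    have h1 : lin (G.c a.1) (nz a.2) = lin (G.c b.1) (nz b.2) := (Prod.ext_iff.mp h).1
    have h2 : G.Z a.1 = G.Z b.1 := (Prod.ext_iff.mp h).2
    obtain ⟨h3, h4⟩ := lin_inj h1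
    have h5 : a.2 = b.2 := by
      funext j i
      have h6 := congrFun (congrFun h4 j) i
      unfold nz at h6
      have p1 : (2 : ℝ) ^ J ≠ 0 := by positivity
      have h7 : ((a.2 j i : ℕ) : ℝ) = ((b.2 j i : ℕ) : ℝ) := by
        field_simp at h6
        linarith only [h6]
      exact Fin.ext (by exact_mod_cast h7)
    exact Prod.ext h5 (Prod.ext h3 h2)
  · intro a b _ _ h
    have h1 : a.2 = b.2 := (Prod.ext_iff.mp h).1
    have h2 : G.c a.1 = G.c b.1 := (Prod.ext_iff.mp (Prod.ext_iff.mp h).2).1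
    have h3 : G.Z a.1 = G.Z b.1 := (Prod.ext_iff.mp (Prod.ext_iff.mp h).2).2
    refine Prod.ext ?_ h3
    show lin (G.c a.1) (nz a.2) = lin (G.c b.1) (nz b.2)
    rw [h1, h2]

/-- The cell of the point of the line. -/
noncomputable def XL (G : CFam m e J) (w : G.Ω × Nz m e J) : Fin (m * (e + 1)) → ℤ :=
  fl J (lpos (lin (G.c w.1) (nz w.2)) (G.t w.1))

/-- The entropy of the cells of the components `1, .., e`, given the curve and the time. -/
theorem lines_noise_le (G : CFam m e J) {S : Type} (Y : G.Ω → S)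
    (hY : Det G.p Y (fun ω => (G.c ω, G.T ω))) :
    m * e * (J * Real.log 2) ≤ CH (up (Nz m e J) G.p) (XL G) (fun w => Y w.1) := by
  have h0 := (up_isLaw (Nz m e J) G.isLaw).nonneg
  rw [← log_card_Nz, ← up_CH_noise (N := Nz m e J) G.isLaw Y]
  refine CH_mono_left h0 ?_
  intro a b ha hb h
  have h1 : XL G a = XL G b := (Prod.ext_iff.mp h).1
  have h2 := hY a.1 b.1 (up_pos ha) (up_pos hb) (Prod.ext_iff.mp h).2
  have h3 : G.c a.1 = G.c b.1 := (Prod.ext_iff.mp h2).1
  have h4 : G.T a.1 = G.T b.1 := (Prod.ext_iff.mp h2).2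
  refine nz_unique (c := G.c a.1) (t := G.t a.1) fun i j => ?_
  have h5 := congrFun h1 (ix i j.succ)
  have h6 : XL G a (ix i j.succ) =
      fl J (lpos (lin (G.c a.1) (nz a.2)) (G.t a.1)) (ix i j.succ) := rfl
  have h7 : XL G b (ix i j.succ) =
      fl J (lpos (lin (G.c b.1) (nz b.2)) (G.t b.1)) (ix i j.succ) := rfl
  have h8 : G.t a.1 = G.t b.1 := by
    unfold CFam.t
    rw [h4]
  rw [h6, h7, ← h3, ← h8] at h5
  exact h5

theorem CFam.t_nonneg (G : CFam m e J) (ω : G.Ω) : 0 ≤ G.t ω := by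
  unfold CFam.t
  positivity

theorem CFam.t_le_one (G : CFam m e J) (ω : G.Ω) : G.t ω ≤ 1 := by
  unfold CFam.t
  have h1 : (G.T ω : ℝ) ≤ 2 ^ J := by
    have := (G.tim ω).le
    exact_mod_cast this
  exact (div_le_one (by positivity)).mpr h1

/-- The cell of the point of the curve, given the cell of the point of the line. -/
theorem lines_near (G : CFam m e J) {S : Type} (Y : G.Ω × Nz m e J → S)
    (hY : Det (up (Nz m e J) G.p) Y (fun w => (XL G w, G.T w.1))) :
    CH (up (Nz m e J) G.p) (fun w => G.X w.1) Y ≤ m * Real.log (2 * (e + 1) + 1) := by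
  have h0 := up_isLaw (Nz m e J) G.isLaw
  have h1 := CH_le_vec h0.nonneg h0.sum_one (fun w : G.Ω × Nz m e J => G.X w.1) Y
    (fun _ => (e : ℝ) + 1) (by
      intro a b ha hb h k
      have h2 := hY a b ha hb h
      have h3 : XL G a = XL G b := (Prod.ext_iff.mp h2).1
      have h4 : G.T a.1 = G.T b.1 := (Prod.ext_iff.mp h2).2
      have h8 : G.t b.1 = G.t a.1 := by
        unfold CFam.t
        rw [h4]
      have h5 : fl J (lpos (lin (G.c a.1) (nz a.2)) (G.t a.1)) =
          fl J (lpos (lin (G.c b.1) (nz b.2)) (G.t b.1)) := h3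
      rw [h8] at h5
      have h6 := cell_near (G.t_nonneg a.1) (G.t_le_one a.1) h5 k
      have h7 : G.X b.1 = fl J (cpos (G.c b.1) (G.t a.1)) := by
        unfold CFam.X
        rw [h8]
      show |((G.X a.1 k - G.X b.1 k : ℤ) : ℝ)| ≤ (e : ℝ) + 1
      rw [h7]
      exact h6)
  unfold Ex at h1
  rw [← Finset.sum_mul, h0.sum_one, one_mul] at h1
  exact h1

/-! ### The value of the family of lines -/

/-- The cells of the components `1, .., e`. -/
noncomputable def Xr (G : CFam m e J) (w : G.Ω × Nz m e J) : Fin (m * e) → ℤ := fun k =>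
  XL G w (ix (finProdFinEquiv.symm k).1 (finProdFinEquiv.symm k).2.succ)

/-- The cells of the component `0`. -/
noncomputable def X0 (G : CFam m e J) (w : G.Ω × Nz m e J) : Fin m → ℤ := fun i =>
  XL G w (ix i 0)

theorem X_of_parts {G : CFam m e J} {a b : G.Ω × Nz m e J} (h1 : Xr G a = Xr G b)
    (h2 : X0 G a = X0 G b) : XL G a = XL G b := by
  funext k
  obtain ⟨⟨i, j⟩, rfl⟩ := finProdFinEquiv.surjective k
  refine Fin.cases ?_ (fun j => ?_) j
  · exact congrFun h2 i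
  · have h3 := congrFun h1 (finProdFinEquiv (i, j))
    unfold Xr at h3
    simpa only [Equiv.symm_apply_apply, ix] using h3

theorem lpos_succ_abs (G : CFam m e J) (w : G.Ω × Nz m e J) (i : Fin m) (j : Fin e) :
    |lpos (lin (G.c w.1) (nz w.2)) (G.t w.1) (ix i j.succ)| ≤ 3 / 2 := by
  rw [lpos_ix, st_succ]
  have h1 := nz_abs w.2 j i
  have h2 := G.dir w.1 j.succ i
  have h3 := tl_nz_abs w.2 j.succ i
  have h4 := G.t_nonneg w.1
  have h5 := G.t_le_one w.1
  have h6 : |G.c w.1 j.succ.succ i - tl (nz w.2) j.succ i| ≤ 1 := by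
    refine (abs_sub _ _).trans ?_
    linarith only [h2, h3]
  have h7 : |G.t w.1 * (G.c w.1 j.succ.succ i - tl (nz w.2) j.succ i)| ≤ 1 := by
    rw [abs_mul, abs_of_nonneg h4]
    calc G.t w.1 * |G.c w.1 j.succ.succ i - tl (nz w.2) j.succ i|
        ≤ 1 * 1 := mul_le_mul h5 h6 (abs_nonneg _) zero_le_one
      _ = 1 := one_mul 1
  refine (abs_add_le _ _).trans ?_
  linarith only [h1, h7]

theorem floor_diff {x y L : ℝ} (h : |x - y| ≤ L) : |((⌊x⌋ - ⌊y⌋ : ℤ) : ℝ)| ≤ L + 1 := by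
  have a1 := Int.floor_le x
  have a2 := Int.lt_floor_add_one x
  have a3 := Int.floor_le y
  have a4 := Int.lt_floor_add_one y
  rw [abs_le] at h ⊢
  push_cast
  constructor <;> linarith only [h.1, h.2, a1, a2, a3, a4]

theorem Xr_le (G : CFam m e J) {S : Type} (Y : G.Ω × Nz m e J → S) :
    CH (up (Nz m e J) G.p) (Xr G) Y ≤ m * e * (J * Real.log 2) + m * e * Real.log 9 := by
  have h0 := up_isLaw (Nz m e J) G.isLaw
  have p1 : (1 : ℝ) ≤ 2 ^ J := one_le_pow₀ (by norm_num)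
  have p0 : (0 : ℝ) < 2 ^ J := by positivity
  have h1 := CH_le_vec h0.nonneg h0.sum_one (Xr G) Y (fun _ => 3 * (2 : ℝ) ^ J + 1) (by
    intro a b _ _ _ k
    have a1 := lpos_succ_abs G a (finProdFinEquiv.symm k).1 (finProdFinEquiv.symm k).2
    have b1 := lpos_succ_abs G b (finProdFinEquiv.symm k).1 (finProdFinEquiv.symm k).2
    set x := lpos (lin (G.c a.1) (nz a.2)) (G.t a.1)
      (ix (finProdFinEquiv.symm k).1 (finProdFinEquiv.symm k).2.succ) with hx
    set y := lpos (lin (G.c b.1) (nz b.2)) (G.t b.1)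
      (ix (finProdFinEquiv.symm k).1 (finProdFinEquiv.symm k).2.succ) with hy
    have e1 : Xr G a k = ⌊(2 : ℝ) ^ J * x⌋ := rfl
    have e2 : Xr G b k = ⌊(2 : ℝ) ^ J * y⌋ := rfl
    rw [e1, e2]
    refine floor_diff ?_
    rw [← mul_sub, abs_mul, abs_of_pos p0]
    have h3 : |x - y| ≤ 3 := by
      refine (abs_sub _ _).trans ?_
      linarith only [a1, b1]
    calc (2 : ℝ) ^ J * |x - y| ≤ 2 ^ J * 3 := mul_le_mul_of_nonneg_left h3 p0.le
      _ = 3 * 2 ^ J := mul_comm _ _)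
  unfold Ex at h1
  rw [← Finset.sum_mul, h0.sum_one, one_mul] at h1
  have h2 : Real.log (2 * (3 * (2 : ℝ) ^ J + 1) + 1) ≤ J * Real.log 2 + Real.log 9 := by
    rw [← Real.log_pow, ← Real.log_mul (by positivity) (by norm_num)]
    refine Real.log_le_log (by positivity) ?_
    linarith only [p1]
  refine h1.trans ?_
  push_cast
  have h3 : (0 : ℝ) ≤ m * e := by positivity
  have h4 := mul_le_mul_of_nonneg_left h2 h3
  linarith only [h4]

theorem X0_le (G : CFam m e J) {S : Type} (Y : G.Ω × Nz m e J → S)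
    (hY : Det (up (Nz m e J) G.p) Y (fun w => (Xr G w, (G.X w.1, G.T w.1)))) :
    CH (up (Nz m e J) G.p) (X0 G) Y ≤ m * Real.log (2 * (e + 1) + 1) := by
  have h0 := up_isLaw (Nz m e J) G.isLaw
  have p0 : (0 : ℝ) < 2 ^ J := by positivity
  have h1 := CH_le_vec h0.nonneg h0.sum_one (X0 G) Y (fun _ => (e : ℝ) + 1) (by
    intro a b ha hb h i
    have h2 := hY a b ha hb h
    have h3 : Xr G a = Xr G b := (Prod.ext_iff.mp h2).1
    have h4 : G.X a.1 = G.X b.1 := (Prod.ext_iff.mp (Prod.ext_iff.mp h2).2).1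
    have h5 : G.T a.1 = G.T b.1 := (Prod.ext_iff.mp (Prod.ext_iff.mp h2).2).2
    have ht : G.t b.1 = G.t a.1 := by
      unfold CFam.t
      rw [h5]
    have t0 := G.t_nonneg a.1
    have t1 := G.t_le_one a.1
    set A : Fin (e + 1) → ℝ := fun j => lpos (lin (G.c a.1) (nz a.2)) (G.t a.1) (ix i j) with hA
    set B : Fin (e + 1) → ℝ := fun j => lpos (lin (G.c b.1) (nz b.2)) (G.t a.1) (ix i j) with hB
    have e1 : X0 G a i = ⌊(2 : ℝ) ^ J * A 0⌋ := rfl
    have e2 : X0 G b i = ⌊(2 : ℝ) ^ J * B 0⌋ := by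
      have : X0 G b i = ⌊(2 : ℝ) ^ J * lpos (lin (G.c b.1) (nz b.2)) (G.t b.1) (ix i 0)⌋ := rfl
      rw [this, ht]
    have c1 : |(2 : ℝ) ^ J * cpos (G.c a.1) (G.t a.1) i - 2 ^ J * cpos (G.c b.1) (G.t a.1) i| < 1 := by
      have := congrFun h4 i
      unfold CFam.X at this
      rw [ht] at this
      exact Int.abs_sub_lt_one_of_floor_eq_floor this
    have c2 : ∀ j : Fin e, |(2 : ℝ) ^ J * A j.succ - 2 ^ J * B j.succ| < 1 := by
      intro j
      have h6 := congrFun h3 (finProdFinEquiv (i, j))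
      have h7 : Xr G a (finProdFinEquiv (i, j)) = ⌊(2 : ℝ) ^ J * A j.succ⌋ := by
        have : Xr G a (finProdFinEquiv (i, j)) = XL G a
          (ix (finProdFinEquiv.symm (finProdFinEquiv (i, j))).1
            (finProdFinEquiv.symm (finProdFinEquiv (i, j))).2.succ) := rfl
        rw [this, Equiv.symm_apply_apply]
        rfl
      have h8 : Xr G b (finProdFinEquiv (i, j)) = ⌊(2 : ℝ) ^ J * B j.succ⌋ := by
        have : Xr G b (finProdFinEquiv (i, j)) = XL G b
          (ix (finProdFinEquiv.symm (finProdFinEquiv (i, j))).1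
            (finProdFinEquiv.symm (finProdFinEquiv (i, j))).2.succ) := rfl
        rw [this, Equiv.symm_apply_apply]
        show ⌊(2 : ℝ) ^ J * lpos (lin (G.c b.1) (nz b.2)) (G.t b.1) (ix i j.succ)⌋ = _
        rw [ht]
      rw [h7, h8] at h6
      exact Int.abs_sub_lt_one_of_floor_eq_floor h6
    have d1 : (2 : ℝ) ^ J * A 0 - 2 ^ J * B 0 =
        (2 ^ J * cpos (G.c a.1) (G.t a.1) i - 2 ^ J * cpos (G.c b.1) (G.t a.1) i) -
          ∑ j : Fin e, G.t a.1 ^ ((j : ℕ) + 1) * (2 ^ J * A j.succ - 2 ^ J * B j.succ) := by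
      have f1 : ∑ j : Fin e, G.t a.1 ^ ((j : ℕ) + 1) * (2 ^ J * A j.succ - 2 ^ J * B j.succ) =
          2 ^ J * (∑ j : Fin e, G.t a.1 ^ ((j : ℕ) + 1) * A j.succ) -
            2 ^ J * ∑ j : Fin e, G.t a.1 ^ ((j : ℕ) + 1) * B j.succ := by
        rw [Finset.mul_sum, Finset.mul_sum, ← Finset.sum_sub_distrib]
        refine Finset.sum_congr rfl fun j _ => ?_
        ring
      have f2 : cpos (G.c a.1) (G.t a.1) i =
          A 0 + ∑ j : Fin e, G.t a.1 ^ ((j : ℕ) + 1) * A j.succ := by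
        rw [cpos_eq (G.c a.1) (nz a.2), Fin.sum_univ_succ]
        simp only [Fin.val_zero, pow_zero, one_mul, Fin.val_succ]
        rfl
      have f3 : cpos (G.c b.1) (G.t a.1) i =
          B 0 + ∑ j : Fin e, G.t a.1 ^ ((j : ℕ) + 1) * B j.succ := by
        rw [cpos_eq (G.c b.1) (nz b.2), Fin.sum_univ_succ]
        simp only [Fin.val_zero, pow_zero, one_mul, Fin.val_succ]
        rfl
      rw [f1, f2, f3]
      ring
    have d2 : |∑ j : Fin e, G.t a.1 ^ ((j : ℕ) + 1) * (2 ^ J * A j.succ - 2 ^ J * B j.succ)| ≤ e := by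
      refine (Finset.abs_sum_le_sum_abs _ _).trans ?_
      have : ∀ j ∈ (Finset.univ : Finset (Fin e)),
          |G.t a.1 ^ ((j : ℕ) + 1) * (2 ^ J * A j.succ - 2 ^ J * B j.succ)| ≤ 1 := by
        intro j _
        rw [abs_mul, abs_of_nonneg (pow_nonneg t0 _)]
        calc G.t a.1 ^ ((j : ℕ) + 1) * |2 ^ J * A j.succ - 2 ^ J * B j.succ|
            ≤ 1 * 1 := mul_le_mul (pow_le_one₀ t0 t1) (c2 j).le (abs_nonneg _) zero_le_one
          _ = 1 := one_mul 1
      refine (Finset.sum_le_sum this).trans ?_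
      simp
    rw [e1, e2]
    have d3 : |(2 : ℝ) ^ J * A 0 - 2 ^ J * B 0| < e + 1 := by
      rw [d1]
      refine lt_of_le_of_lt (abs_sub _ _) ?_
      linarith only [c1, d2]
    have a1 := Int.floor_le ((2 : ℝ) ^ J * A 0)
    have a2 := Int.lt_floor_add_one ((2 : ℝ) ^ J * A 0)
    have a3 := Int.floor_le ((2 : ℝ) ^ J * B 0)
    have a4 := Int.lt_floor_add_one ((2 : ℝ) ^ J * B 0)
    rw [abs_lt] at d3
    have b1 : ((⌊(2 : ℝ) ^ J * A 0⌋ - ⌊(2 : ℝ) ^ J * B 0⌋ : ℤ) : ℝ) < ((e + 2 : ℤ) : ℝ) := by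
      push_cast
      linarith only [a1, a4, d3.2]
    have b2 : ((-(e + 2) : ℤ) : ℝ) <
        ((⌊(2 : ℝ) ^ J * A 0⌋ - ⌊(2 : ℝ) ^ J * B 0⌋ : ℤ) : ℝ) := by
      push_cast
      linarith only [a2, a3, d3.1]
    rw [Int.cast_lt] at b1 b2
    have b3 : |⌊(2 : ℝ) ^ J * A 0⌋ - ⌊(2 : ℝ) ^ J * B 0⌋| ≤ (e + 1 : ℤ) := by
      rw [abs_le]
      constructor
      · have := Int.add_one_le_iff.mpr b2
        linarith only [this]
      · have := Int.le_sub_one_of_lt b1
        linarith only [this]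
    have b4 : ((|⌊(2 : ℝ) ^ J * A 0⌋ - ⌊(2 : ℝ) ^ J * B 0⌋| : ℤ) : ℝ) ≤
        ((e + 1 : ℤ) : ℝ) := Int.cast_le.mpr b3
    rw [Int.cast_abs] at b4
    push_cast at b4 ⊢
    exact b4)
  unfold Ex at h1
  rw [← Finset.sum_mul, h0.sum_one, one_mul] at h1
  exact h1

theorem lines_Vf (G : CFam m e J) : G.lines.Vf =
    CH (up (Nz m e J) G.p) (fun w => (XL G w, G.T w.1)) (fun w => G.Z w.1) -
      CH G.p G.T (fun ω => (G.c ω, G.Z ω)) := by
  unfold Fam.Vf
  rw [lines_CHT G]
  rfl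

theorem lines_Vf_le (G : CFam m e J) :
    G.lines.Vf ≤ G.Vf + m * e * (J * Real.log 2) + Cs m e := by
  have h0 := (up_isLaw (Nz m e J) G.isLaw).nonneg
  have a1 : CH (up (Nz m e J) G.p) (fun w => (XL G w, G.T w.1)) (fun w => G.Z w.1) ≤
      CH (up (Nz m e J) G.p) (fun w => (X0 G w, (Xr G w, (G.X w.1, G.T w.1))))
        (fun w => G.Z w.1) := by
    refine CH_mono_left h0 ?_
    intro a b _ _ h
    have h1 := (Prod.ext_iff.mp h).1
    simp only [Prod.mk.injEq] at h1
    exact Prod.ext (X_of_parts h1.2.1 h1.1) h1.2.2.2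
  have a3 := CH_chain h0 (X0 G) (fun w => (Xr G w, (G.X w.1, G.T w.1))) (fun w => G.Z w.1)
  have a4 := X0_le G (fun w => ((Xr G w, (G.X w.1, G.T w.1)), G.Z w.1))
    (fun a b _ _ h => (Prod.ext_iff.mp h).1)
  have a5 := CH_chain h0 (Xr G) (fun w => (G.X w.1, G.T w.1)) (fun w => G.Z w.1)
  have a6 := Xr_le G (fun w => ((G.X w.1, G.T w.1), G.Z w.1))
  have a7 : CH (up (Nz m e J) G.p) (fun w => (G.X w.1, G.T w.1)) (fun w => G.Z w.1) =
      CH G.p (fun ω => (G.X ω, G.T ω)) G.Z := up_CH G.p (fun ω => (G.X ω, G.T ω)) G.Z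
  rw [lines_Vf]
  unfold CFam.Vf Cs
  linarith only [a1, a3, a4, a5, a6, a7]

theorem lines_Vf_ge (G : CFam m e J) :
    G.Vf + m * e * (J * Real.log 2) ≤ G.lines.Vf + Cs m e := by
  have h0 := (up_isLaw (Nz m e J) G.isLaw).nonneg
  have a1 := CH_le_add h0 (fun w => (XL G w, (G.X w.1, G.T w.1)))
    (fun w => (XL G w, G.T w.1)) (fun w => G.Z w.1)
  have a2 : CH (up (Nz m e J) G.p) (fun w => (XL G w, (G.X w.1, G.T w.1)))
      (fun w => ((XL G w, G.T w.1), G.Z w.1)) ≤
      CH (up (Nz m e J) G.p) (fun w => G.X w.1) (fun w => ((XL G w, G.T w.1), G.Z w.1)) := by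
    refine CH_mono_left h0 ?_
    intro a b _ _ h
    have h1 := (Prod.ext_iff.mp h).1
    have h2 := (Prod.ext_iff.mp (Prod.ext_iff.mp h).2).1
    have h3 : XL G a = XL G b := (Prod.ext_iff.mp h2).1
    have h4 : G.T a.1 = G.T b.1 := (Prod.ext_iff.mp h2).2
    exact Prod.ext h3 (Prod.ext h1 h4)
  have a3 := lines_near G (fun w => ((XL G w, G.T w.1), G.Z w.1))
    (fun a b _ _ h => (Prod.ext_iff.mp h).1)
  have a4 := CH_chain h0 (XL G) (fun w => (G.X w.1, G.T w.1)) (fun w => G.Z w.1)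
  have a5 : CH (up (Nz m e J) G.p) (fun w => (G.X w.1, G.T w.1)) (fun w => G.Z w.1) =
      CH G.p (fun ω => (G.X ω, G.T ω)) G.Z := up_CH G.p (fun ω => (G.X ω, G.T ω)) G.Z
  have a6 := lines_noise_le G (fun ω => ((G.c ω, G.T ω), G.Z ω))
    (fun a b _ _ h => (Prod.ext_iff.mp h).1)
  have a7 : CH (up (Nz m e J) G.p) (XL G) (fun w => ((G.c w.1, G.T w.1), G.Z w.1)) ≤
      CH (up (Nz m e J) G.p) (XL G) (fun w => ((G.X w.1, G.T w.1), G.Z w.1)) := by
    refine CH_mono_cond h0 ?_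
    intro a b _ _ h
    have h1 : G.c a.1 = G.c b.1 := (Prod.ext_iff.mp (Prod.ext_iff.mp h).1).1
    have h2 : G.T a.1 = G.T b.1 := (Prod.ext_iff.mp (Prod.ext_iff.mp h).1).2
    have h3 : G.Z a.1 = G.Z b.1 := (Prod.ext_iff.mp h).2
    refine Prod.ext (Prod.ext ?_ h2) h3
    show G.X a.1 = G.X b.1
    unfold CFam.X CFam.t
    rw [h1, h2]
  have h9 : (0 : ℝ) ≤ m * e * Real.log 9 := by
    have := Real.log_nonneg (show (1 : ℝ) ≤ 9 by norm_num)
    positivity
  rw [lines_Vf]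
  unfold CFam.Vf Cs
  linarith only [a1, a2, a3, a4, a5, a6, a7, h9]

end Vf

end Pool.SH
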